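import Mathlib

/-!
# Transcendence of `π`

Derived from the analytic part of Lindemann–Weierstrass in Mathlib.
-/

open Polynomial Complex
open scoped Nat

namespace TranscendentalPi

/-- The field of algebraic numbers inside `ℂ`. -/
noncomputable abbrev A : IntermediateField ℚ ℂ := algebraicClosure ℚ ℂ

instance : IsGalois ℚ A :=
  haveI : IsAlgClosure ℚ A := algebraicClosure.isAlgClosure ℚ ℂ
  IsAlgClosure.isGalois ℚ A

theorem exists_rat_of_fixed (z : A) (h : ∀ σ : A ≃ₐ[ℚ] A, σ z = z) :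
    ∃ q : ℚ, algebraMap ℚ A q = z := by
  have := (InfiniteGalois.mem_bot_iff_fixed (k := ℚ) (K := A) z).2 h
  exact IntermediateField.mem_bot.1 this

theorem exists_int_of_fixed (z : A) (h : ∀ σ : A ≃ₐ[ℚ] A, σ z = z) (hz : IsIntegral ℤ z) :
    ∃ q : ℤ, (q : A) = z := by
  obtain ⟨q, rfl⟩ := exists_rat_of_fixed z h
  have hq : IsIntegral ℤ q := by
    rwa [isIntegral_algebraMap_iff (algebraMap ℚ A).injective] at hz
  obtain ⟨n, hn⟩ := IsIntegrallyClosed.isIntegral_iff.1 hq
  exact ⟨n, by rw [← hn]; simp⟩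

theorem exists_lift (F : A[X]) (h : ∀ σ : A ≃ₐ[ℚ] A, F.map (σ : A →+* A) = F) :
    ∃ F₀ : ℚ[X], F₀.map (algebraMap ℚ A) = F := by
  rw [← Polynomial.mem_lifts]
  rw [Polynomial.lifts_iff_coeff_lifts]
  intro n
  obtain ⟨q, hq⟩ := exists_rat_of_fixed (F.coeff n) (fun σ => by
    conv_rhs => rw [← h σ]
    rw [coeff_map]; rfl)
  exact ⟨q, hq⟩

theorem natDegree_integral {f g : ℤ[X]} {D : ℕ} (hD : g.natDegree ≤ D) {z : A}
    (hz : aeval z f = 0) :
    IsIntegral ℤ ((f.leadingCoeff : A) ^ D * aeval z g) := by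
  have h1 : IsIntegral ℤ ((f.leadingCoeff : A) * z) := by
    have := isIntegral_leadingCoeff_smul f z hz
    rwa [zsmul_eq_mul] at this
  rw [aeval_eq_sum_range' (Nat.lt_succ_of_le hD), Finset.mul_sum]
  refine IsIntegral.sum _ fun i hi => ?_
  have hi' : i ≤ D := Nat.lt_succ_iff.1 (Finset.mem_range.1 hi)
  have : (f.leadingCoeff : A) ^ D * (g.coeff i • z ^ i)
      = ((f.leadingCoeff ^ (D - i) * g.coeff i : ℤ) : A) * ((f.leadingCoeff : A) * z) ^ i := by
    rw [zsmul_eq_mul]
    have : (f.leadingCoeff : A) ^ D = (f.leadingCoeff : A) ^ (D - i) * (f.leadingCoeff : A) ^ i := by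
      rw [← pow_add, Nat.sub_add_cancel hi']
    rw [this]; push_cast; ring
  rw [this]
  exact (isIntegral_algebraMap (R := ℤ) (x := (f.leadingCoeff ^ (D - i) * g.coeff i : ℤ))).mul
    (h1.pow i)

theorem key {ι : Type*} (I : Finset ι) (β : ι → A) (hβ : ∀ i ∈ I, β i ≠ 0)
    (perm : ∀ σ : A ≃ₐ[ℚ] A, I.val.map (fun i => σ (β i)) = I.val.map β)
    (a : ℕ) (ha : 0 < a) : (a : ℂ) + ∑ i ∈ I, exp (β i) ≠ 0 := by
  classical
  intro hsum
  -- the polynomial
  set F : A[X] := (I.val.map (fun i => X - C (β i))).prod with hF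
  have hFσ : ∀ σ : A ≃ₐ[ℚ] A, F.map (σ : A →+* A) = F := by
    intro σ
    rw [hF, Polynomial.map_multiset_prod, Multiset.map_map]
    have e1 : (I.val.map ((Polynomial.map (σ : A →+* A)) ∘ fun i => X - C (β i)))
        = (I.val.map (fun i => σ (β i))).map (fun z => X - C z) := by
      rw [Multiset.map_map]
      apply Multiset.map_congr rfl
      intro i _
      simp
    rw [e1, perm σ, Multiset.map_map]
    rfl
  obtain ⟨F₀, hF₀⟩ := exists_lift F hFσ
  obtain ⟨b, hb, hb'⟩ := IsLocalization.integerNormalization_spec (nonZeroDivisors ℤ) F₀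
  set f : ℤ[X] := IsLocalization.integerNormalization (nonZeroDivisors ℤ) F₀ with hf
  have hb0 : b ≠ 0 := nonZeroDivisors.ne_zero hb
  have hfA : f.map (algebraMap ℤ A) = C (b : A) * F := by
    have : f.map (algebraMap ℤ A) = (f.map (algebraMap ℤ ℚ)).map (algebraMap ℚ A) := by
      rw [Polynomial.map_map]; congr 1
    rw [this, hb', ← hF₀]
    rw [zsmul_eq_mul, Polynomial.map_mul, Polynomial.map_intCast]
    simp
  have hFne : F ≠ 0 := by
    rw [hF]
    exact (monic_multiset_prod_of_monic _ _ (fun i _ => monic_X_sub_C _)).ne_zero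
  have hfne : f ≠ 0 := by
    intro h0
    rw [h0, Polynomial.map_zero] at hfA
    have : (b : A) ≠ 0 := by exact_mod_cast hb0
    exact (mul_ne_zero (C_ne_zero.2 this) hFne) hfA.symm
  have hroot : ∀ i ∈ I, aeval (β i) f = 0 := by
    intro i hi
    have h1 : aeval (β i) f = eval (β i) (f.map (algebraMap ℤ A)) := by
      rw [eval_map, aeval_def]
    rw [h1, hfA, eval_mul]
    have : eval (β i) F = 0 := by
      rw [hF, eval_multiset_prod, Multiset.map_map]
      apply Multiset.prod_eq_zero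
      rw [Multiset.mem_map]
      exact ⟨i, hi, by simp⟩
    rw [this, mul_zero]
  have hf0 : f.eval 0 ≠ 0 := by
    intro h0
    have h1 : eval 0 (f.map (algebraMap ℤ A)) = 0 := by
      rw [← map_zero (algebraMap ℤ A), eval_map_apply, h0, map_zero]
    rw [hfA, eval_mul, eval_C] at h1
    rcases mul_eq_zero.1 h1 with h | h
    · exact hb0 (by exact_mod_cast h)
    · rw [hF, eval_multiset_prod, Multiset.map_map, Multiset.prod_eq_zero_iff,
        Multiset.mem_map] at h
      obtain ⟨i, hi, hi'⟩ := h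
      simp only [Function.comp_apply, eval_sub, eval_X, eval_C, zero_sub, neg_eq_zero] at hi'
      exact hβ i hi hi'
  obtain ⟨c, hc⟩ := LindemannWeierstrass.exp_polynomial_approx f hf0
  -- choose a large prime
  set L : ℝ := |(f.leadingCoeff : ℝ)| ^ f.natDegree with hL
  set d : ℕ := f.natDegree with hd
  -- the limit
  have hlim : Filter.Tendsto (fun p : ℕ => (I.card : ℝ) * (L * (L * |c|) * ((L * |c|) ^ p / (p ! : ℝ))))
      Filter.atTop (nhds 0) := by
    have := FloorSemiring.tendsto_pow_div_factorial_atTop (L * |c|)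
    simpa using (this.const_mul (L * (L * |c|))).const_mul (I.card : ℝ)
  have hev : ∀ᶠ p : ℕ in Filter.atTop,
      (I.card : ℝ) * (L * (L * |c|) * ((L * |c|) ^ p / (p ! : ℝ))) < 1 :=
    hlim.eventually (gt_mem_nhds one_pos)
  obtain ⟨N₀, hN₀⟩ := Filter.eventually_atTop.1 hev
  obtain ⟨p, hpN, hp⟩ := Nat.exists_infinite_primes
    (N₀ + 2 + (eval 0 f).natAbs + a + f.leadingCoeff.natAbs)
  obtain ⟨n, hn, g, hg, happ⟩ := hc p (by omega) hp
  -- the integer
  set S : A := ∑ i ∈ I, aeval (β i) g with hS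
  have hint : ∃ m : ℤ, (m : A) = (f.leadingCoeff : A) ^ (p * d) * S := by
    apply exists_int_of_fixed
    · intro σ
      rw [map_mul, map_pow, map_intCast]
      congr 1
      rw [hS, map_sum]
      have e1 : ∀ i ∈ I, σ (aeval (β i) g) = aeval (σ (β i)) g := by
        intro i _
        exact (aeval_algHom_apply ((σ : A →ₐ[ℚ] A).restrictScalars ℤ) (β i) g).symm
      rw [Finset.sum_congr rfl e1]
      change (I.val.map (fun i => aeval (σ (β i)) g)).sum = (I.val.map (fun i => aeval (β i) g)).sum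
      have e2 : I.val.map (fun i => aeval (σ (β i)) g)
          = (I.val.map (fun i => σ (β i))).map (fun z => aeval z g) := by
        rw [Multiset.map_map]; rfl
      rw [e2, perm σ, Multiset.map_map]
      rfl
    · rw [hS, Finset.mul_sum]
      refine IsIntegral.sum _ fun i hi => ?_
      exact natDegree_integral (hg.trans (Nat.sub_le _ _)) (hroot i hi)
  obtain ⟨m, hm⟩ := hint
  -- the integer is not zero
  set M : ℤ := f.leadingCoeff ^ (p * d) * n * a + p * m with hM
  have hlc : f.leadingCoeff ≠ 0 := leadingCoeff_ne_zero.2 hfne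
  have hpp : Prime (p : ℤ) := Nat.prime_iff_prime_int.1 hp
  have hM0 : M ≠ 0 := by
    intro h0
    have hdvd : (p : ℤ) ∣ f.leadingCoeff ^ (p * d) * n * a :=
      (dvd_add_left (Dvd.intro _ rfl)).1 (hM ▸ h0 ▸ dvd_zero _)
    rcases hpp.dvd_or_dvd hdvd with h | h
    · rcases hpp.dvd_or_dvd h with h | h
      · have := hpp.dvd_of_dvd_pow h
        have := Int.natAbs_dvd_natAbs.2 this
        have := Nat.le_of_dvd (Int.natAbs_pos.2 hlc) this
        simp only [Int.natAbs_natCast] at this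
        omega
      · exact hn h
    · have := Nat.le_of_dvd ha (by exact_mod_cast h)
      omega
  have hM1 : (1 : ℝ) ≤ |(M : ℝ)| := by
    have := Int.one_le_abs hM0
    exact_mod_cast this
  -- upper bound
  have hMC : (M : ℂ) = (f.leadingCoeff : ℂ) ^ (p * d) *
      (-∑ i ∈ I, ((n : ℂ) * exp (β i) - p * aeval ((β i : A) : ℂ) g)) := by
    have hmC : (m : ℂ) = (f.leadingCoeff : ℂ) ^ (p * d) * ∑ i ∈ I, aeval ((β i : A) : ℂ) g := by
      have := congrArg (algebraMap A ℂ) hm
      rw [map_mul, map_pow, map_intCast, map_intCast, hS, map_sum] at this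
      rw [this]
      congr 1
      refine Finset.sum_congr rfl fun i _ => ?_
      exact (aeval_algebraMap_apply ℂ (β i) g).symm
    have h2 : (n : ℂ) * a = - ∑ i ∈ I, (n : ℂ) * exp (β i) := by
      rw [← Finset.mul_sum, ← mul_neg]
      congr 1
      linear_combination hsum
    rw [hM]
    push_cast
    rw [hmC, Finset.sum_sub_distrib]
    rw [← Finset.mul_sum (f := fun i => aeval ((β i : A) : ℂ) g)]
    linear_combination (f.leadingCoeff : ℂ) ^ (p * d) * h2
  have hterm : ∀ i ∈ I, ‖(n : ℂ) * exp (β i) - p * aeval ((β i : A) : ℂ) g‖ ≤ |c| ^ p / (p - 1)! := by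
    intro i hi
    have hr : ((β i : A) : ℂ) ∈ f.aroots ℂ := by
      rw [mem_aroots]
      refine ⟨hfne, ?_⟩
      have := aeval_algebraMap_apply ℂ (β i) f
      rw [hroot i hi, map_zero] at this
      exact this
    have := happ hr
    rw [nsmul_eq_mul, zsmul_eq_mul] at this
    refine this.trans ?_
    rw [← abs_pow]
    exact div_le_div_of_nonneg_right (le_abs_self _) (Nat.cast_nonneg _)
  have hup : |(M : ℝ)| ≤ L ^ p * (I.card * (|c| ^ p / (p - 1)!)) := by
    have e0 : |(M : ℝ)| = ‖(M : ℂ)‖ := by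
      rw [Complex.norm_intCast]
    rw [e0, hMC, norm_mul, norm_neg, norm_pow, Complex.norm_intCast]
    have e1 : |(f.leadingCoeff : ℝ)| ^ (p * d) = L ^ p := by
      rw [hL, ← pow_mul, mul_comm]
    rw [e1]
    gcongr
    refine (norm_sum_le_of_le _ hterm).trans ?_
    rw [Finset.sum_const, nsmul_eq_mul]
  have hp1 : 1 ≤ p := hp.one_le
  obtain ⟨q, rfl⟩ : ∃ q, p = q + 1 := ⟨p - 1, by omega⟩
  have hlt := hN₀ q (by omega)
  have hL0 : 1 ≤ L := by
    rw [hL]
    apply one_le_pow₀
    exact_mod_cast Int.one_le_abs hlc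
  have hbound : L ^ (q + 1) * (I.card * (|c| ^ (q + 1) / (q + 1 - 1)!)) ≤
      (I.card : ℝ) * (L * (L * |c|) * ((L * |c|) ^ q / (q ! : ℝ))) := by
    simp only [Nat.add_sub_cancel]
    rw [mul_pow]
    have h1 : L ^ (q + 1) * (I.card * (|c| ^ (q + 1) / (q ! : ℝ)))
        = (I.card : ℝ) * ((L * |c|) * (L ^ q * |c| ^ q / (q ! : ℝ))) := by
      rw [pow_succ, pow_succ]; ring
    rw [h1]
    have h0 : (0:ℝ) ≤ (L * |c|) * (L ^ q * |c| ^ q / (q ! : ℝ)) := by positivity
    calc (I.card : ℝ) * ((L * |c|) * (L ^ q * |c| ^ q / (q ! : ℝ)))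
        ≤ (I.card : ℝ) * (L * ((L * |c|) * (L ^ q * |c| ^ q / (q ! : ℝ)))) := by
          refine mul_le_mul_of_nonneg_left ?_ (Nat.cast_nonneg _)
          exact le_mul_of_one_le_left h0 hL0
      _ = _ := by ring
  linarith

/-- If `θ` is algebraic, `exp θ ≠ -1`. -/
theorem exp_ne_neg_one (θ : A) : exp (θ : ℂ) ≠ -1 := by
  classical
  intro hθ
  set P : ℚ[X] := minpoly ℚ θ with hP
  have hθi : IsIntegral ℚ θ := Algebra.IsIntegral.isIntegral θ
  have hP0 : P ≠ 0 := minpoly.ne_zero hθi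
  set s : Finset A := (P.aroots A).toFinset with hs
  have hmem : ∀ z : A, z ∈ s ↔ aeval z P = 0 := by
    intro z
    rw [hs, Multiset.mem_toFinset, mem_aroots]
    simp [hP0]
  have hθs : θ ∈ s := (hmem θ).2 (minpoly.aeval ℚ θ)
  have hσs : ∀ σ : A ≃ₐ[ℚ] A, ∀ z : A, σ z ∈ s ↔ z ∈ s := by
    intro σ z
    rw [hmem, hmem]
    have : aeval (σ z) P = σ (aeval z P) := aeval_algHom_apply (σ : A →ₐ[ℚ] A) z P
    rw [this]
    simp
  have hprod : ∏ z ∈ s, (1 + exp (z : ℂ)) = 0 := by
    apply Finset.prod_eq_zero hθs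
    rw [hθ]; ring
  rw [Finset.prod_one_add] at hprod
  have hprod' : ∑ t ∈ s.powerset, exp (((∑ z ∈ t, z : A)) : ℂ) = 0 := by
    rw [← hprod]
    refine Finset.sum_congr rfl fun t _ => ?_
    rw [← Complex.exp_sum]
    congr 1
    have := map_sum (algebraMap A ℂ) (fun z : A => z) t
    exact this
  rw [← Finset.sum_filter_add_sum_filter_not s.powerset (fun t => (∑ z ∈ t, z : A) = 0)] at hprod'
  have h1 : ∑ t ∈ s.powerset with (∑ z ∈ t, z : A) = 0, exp (((∑ z ∈ t, z : A)) : ℂ)
      = ((s.powerset.filter (fun t => (∑ z ∈ t, z : A) = 0)).card : ℂ) := by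
    rw [Finset.sum_congr rfl (g := fun _ => (1 : ℂ))]
    · simp
    · intro t ht
      rw [(Finset.mem_filter.1 ht).2]
      simp
  rw [h1] at hprod'
  refine key (s.powerset.filter (fun t => ¬ (∑ z ∈ t, z : A) = 0)) (fun t => ∑ z ∈ t, z) ?_ ?_ _ ?_
    hprod'
  · intro t ht
    exact (Finset.mem_filter.1 ht).2
  · intro σ
    set I := s.powerset.filter (fun t => ¬ (∑ z ∈ t, z : A) = 0) with hI
    have hsum : ∀ t : Finset A, σ (∑ z ∈ t, z) = ∑ z ∈ t.map σ.toEquiv.toEmbedding, z := by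
      intro t
      rw [map_sum, Finset.sum_map]
      rfl
    have hmap : I.map (Finset.mapEmbedding σ.toEquiv.toEmbedding).toEmbedding = I := by
      apply Finset.eq_of_subset_of_card_le
      · intro t ht
        rw [Finset.mem_map] at ht
        obtain ⟨u, hu, rfl⟩ := ht
        rw [hI, Finset.mem_filter, Finset.mem_powerset] at hu ⊢
        refine ⟨?_, ?_⟩
        · intro z hz
          have hz' : z ∈ u.map σ.toEquiv.toEmbedding := hz
          rw [Finset.mem_map] at hz'
          obtain ⟨y, hy, rfl⟩ := hz'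
          exact (hσs σ y).2 (hu.1 hy)
        · intro h0
          have h0' : ∑ z ∈ u.map σ.toEquiv.toEmbedding, z = 0 := h0
          rw [← hsum] at h0'
          exact hu.2 ((map_eq_zero_iff σ σ.injective).1 h0')
      · rw [Finset.card_map]
    conv_rhs => rw [← hmap, Finset.map_val, Multiset.map_map]
    apply Multiset.map_congr rfl
    intro t _
    exact hsum t
  · apply Finset.card_pos.2
    exact ⟨∅, by simp⟩

theorem transcendental_pi : Transcendental ℚ (Real.pi : ℂ) := by
  intro hπ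
  have hI : IsAlgebraic ℚ (Complex.I) := by
    refine ⟨X ^ 2 + 1, ?_, by simp⟩
    intro h
    have := congrArg (eval 0) h
    simp at this
  have hπI : IsAlgebraic ℚ (Real.pi * Complex.I : ℂ) := hπ.mul hI
  exact exp_ne_neg_one ⟨_, (mem_algebraicClosure_iff).2 hπI⟩ Complex.exp_pi_mul_I

end TranscendentalPi

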